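import Pool.Agent.Lib.D2_h17.Kap4
import Pool.Agent.Lib.LUC.E1

/-!
# DefectTwo for all `p`, Part A, row H2: over a perfect base `L` which is relatively algebraically
closed in the closed field `M`, no algebraic element is near to an element of `M`.
-/

set_option autoImplicit false

open Polynomial

namespace Pool.Agent.D2

open Pool.Agent.H15JM (RVal)
open Pool.Agent.LU1 (VPos val_add_vpos)
open Pool.Agent.LUC (Cl clF)

universe u w

section Sup

variable {L : Type w} {Ω : Type u} [Field L] [Field Ω] [Algebra L Ω] {v : RVal Ω} {z : Ω} {s : ℝ}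

/-- `s` is the supremum of the `α(ψ)`. -/
def Sup (L : Type w) {Ω : Type u} [Field L] [Field Ω] [Algebra L Ω] (v : RVal Ω) (z : Ω)
    (s : ℝ) : Prop := IsLUB (Set.range fun ψ : L => al v z ψ) s

theorem Sup.le (h : Sup L v z s) (ψ : L) : al v z ψ ≤ s := h.1 ⟨ψ, rfl⟩

theorem Sup.lt (hs : Star L v z) (h : Sup L v z s) (ψ : L) : al v z ψ < s := by
  obtain ⟨ψ', hψ'⟩ := hs.nomax ψ
  exact hψ'.trans_le (h.le ψ')

theorem Sup.ev (h : Sup L v z s) {t : ℝ} (ht : t < s) : Ev v z fun ψ : L => t < al v z ψ := by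
  obtain ⟨_, ⟨ψ, rfl⟩, h1⟩ := (lt_isLUB_iff h).mp ht
  exact ⟨ψ, fun ψ' hψ' => h1.trans_le hψ'⟩

theorem Sup.near (hs : Star L v z) (h : Sup L v z s) {ζ : Ω} (hζ : v.Ge s (z - ζ)) :
    Near L v z ζ := fun h0 ψ => (h.lt hs ψ).trans_le (hζ h0)

theorem Sup.ge (h : Sup L v z s) {ζ : Ω} (hζ : Near L v z ζ) : v.Ge s (z - ζ) := fun h0 =>
  h.2 (by
    rintro _ ⟨ψ, rfl⟩
    exact (hζ h0 ψ).le)

/-- If the `α(ψ)` are bounded, the supremum exists. -/
theorem exists_sup {B : ℝ} (hB : ∀ ψ : L, al v z ψ ≤ B) : ∃ s, Sup L v z s :=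
  ⟨_, isLUB_csSup ⟨_, ⟨0, rfl⟩⟩ ⟨B, by
    rintro _ ⟨ψ, rfl⟩
    exact hB ψ⟩⟩

end Sup

/-- A polynomial with a small value has a root nearby. -/
theorem exists_root_ge {Ω : Type u} [Field Ω] [IsAlgClosed Ω] {v : RVal Ω} {P : Polynomial Ω}
    (hP : 0 < P.natDegree) {x : Ω} {s : ℝ} (h : v.Ge (v P.leadingCoeff + P.natDegree * s) (P.eval x)) :
    ∃ ρ, P.eval ρ = 0 ∧ v.Ge s (x - ρ) := by
  by_contra hcon
  push Not at hcon
  have hP0 : P ≠ 0 := by
    rintro rfl
    simp at hP
  have hl : P.leadingCoeff ≠ 0 := leadingCoeff_ne_zero.mpr hP0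
  have hsp := IsAlgClosed.splits P
  have hcard : P.roots.card = P.natDegree := (splits_iff_card_roots.mp hsp)
  have hroots : ∀ ρ ∈ P.roots, x - ρ ≠ 0 ∧ v (x - ρ) < s := by
    intro ρ hρ
    have := hcon ρ ((mem_roots hP0).mp hρ)
    unfold RVal.Ge at this
    push Not at this
    exact this
  have key : ∀ R : Multiset Ω, (∀ ρ ∈ R, x - ρ ≠ 0 ∧ v (x - ρ) < s) →
      (R.map fun ρ => x - ρ).prod ≠ 0 ∧
        v (R.map fun ρ => x - ρ).prod ≤ R.card * s ∧
        (0 < R.card → v (R.map fun ρ => x - ρ).prod < R.card * s) := by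
    intro R
    induction R using Multiset.induction_on with
    | empty => intro _; simp [v.map_one]
    | cons ρ R ih =>
      intro hR
      obtain ⟨h1, h2, -⟩ := ih fun ρ' h' => hR ρ' (Multiset.mem_cons_of_mem h')
      obtain ⟨h3, h4⟩ := hR ρ (Multiset.mem_cons_self ρ R)
      rw [Multiset.map_cons, Multiset.prod_cons, Multiset.card_cons]
      have h5 : v ((x - ρ) * (R.map fun ρ => x - ρ).prod) < ((R.card + 1 : ℕ) : ℝ) * s := by
        rw [v.map_mul h3 h1]
        push_cast
        linarith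
      exact ⟨mul_ne_zero h3 h1, h5.le, fun _ => h5⟩
  obtain ⟨h1, -, h2⟩ := key P.roots hroots
  have h3 := h2 (by rw [hcard]; exact hP)
  have h4 : P.eval x = P.leadingCoeff * (P.roots.map fun ρ => x - ρ).prod := by
    conv_lhs => rw [hsp.eq_prod_roots]
    rw [eval_mul, eval_C, eval_multiset_prod, Multiset.map_map]
    congr 2
    refine Multiset.map_congr rfl fun ρ _ => ?_
    simp
  have h5 : P.eval x ≠ 0 := by
    rw [h4]
    exact mul_ne_zero hl h1
  have h6 := h h5
  rw [h4, v.map_mul hl h1] at h6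
  rw [hcard] at h3
  linarith

section Main

variable {L : Type w} {Ω : Type u} [Field L] [Field Ω] [Algebra L Ω] [IsAlgClosed Ω]
  {v : RVal Ω} {z : Ω} {s : ℝ}

omit [IsAlgClosed Ω] in
/-- Taylor expansion at `ψ`. -/
theorem taylor_root {G : Polynomial L} {ζ : Ω} (hζ : aeval ζ G = 0) (ψ : L) :
    ∑ j ∈ Finset.range (G.natDegree + 1),
      algebraMap L Ω ((hasseDeriv j G).eval ψ) * (ζ - algebraMap L Ω ψ) ^ j = 0 := by
  have h2 : (taylor (algebraMap L Ω ψ) (G.map (algebraMap L Ω))).eval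
      (ζ - algebraMap L Ω ψ) = 0 := by
    rw [taylor_eval_sub, eval_map_algebraMap]
    exact hζ
  rw [eval_eq_sum_range, natDegree_taylor, natDegree_map] at h2
  rw [← h2]
  refine Finset.sum_congr rfl fun j _ => ?_
  rw [algebraMap_hasse, taylor_coeff]

omit [IsAlgClosed Ω] in
theorem nr_le (G : Polynomial L) : nr v z G ≤ G.natDegree := by
  classical
  unfold nr nN
  refine (Multiset.card_le_card (Multiset.filter_le _ _)).trans ?_
  refine (card_roots' _).trans ?_
  rw [natDegree_map]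

/-- The values of the Taylor coefficients at the radius `s`. -/
theorem KG.ge_sup (hs : Star L v z) (hk : NatU v) (hsup : Sup L v z s) {G : Polynomial L}
    (hG : KG v z G) {j : ℕ} (hj : 0 < j) (h0 : hasseDeriv j G ≠ 0) :
    phi v z G + nr v z G * s ≤ phi v z (hasseDeriv j G) + j * s := by
  rcases lt_trichotomy j (nr v z G) with h | h | h
  · have hc : (0 : ℝ) < nr v z G - j := by
      have : (j : ℝ) < nr v z G := by exact_mod_cast h
      linarith
    by_contra hcon
    push Not at hcon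
    have h1 : (phi v z (hasseDeriv j G) - phi v z G) / (nr v z G - j) < s := by
      rw [div_lt_iff₀ hc]
      linarith
    obtain ⟨ψ, hψ⟩ := (hsup.ev h1).ex
    have h2 := hG.phi_lt hs hk hj h h0 ψ
    rw [div_lt_iff₀ hc] at hψ
    linarith
  · subst h
    rw [hG.phi_hasse hs hk]
  · obtain ⟨ψ, h1, h2⟩ := ((hs.ev_fa G).and (hs.ev_fa (hasseDeriv j G))).ex
    have h3 := hG.phi_gt hs hk h h0 h1 h2
    have h4 := hsup.lt hs ψ
    have h5 : (nr v z G : ℝ) < j := by exact_mod_cast h
    nlinarith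

theorem KG.gt_sup (hs : Star L v z) (hk : NatU v) (hsup : Sup L v z s) {G : Polynomial L}
    (hG : KG v z G) {j : ℕ} (hj : nr v z G < j) (h0 : hasseDeriv j G ≠ 0) :
    phi v z G + nr v z G * s < phi v z (hasseDeriv j G) + j * s := by
  obtain ⟨ψ, h1, h2⟩ := ((hs.ev_fa G).and (hs.ev_fa (hasseDeriv j G))).ex
  have h3 := hG.phi_gt hs hk hj h0 h1 h2
  have h4 := hsup.lt hs ψ
  have h5 : (nr v z G : ℝ) < j := by exact_mod_cast hj
  nlinarith

/-- Step 1: some index of least value at the radius `s` is prime to `p`. -/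
theorem KG.exists_prime_index (hs : Star L v z) (hk : NatU v) (hsup : Sup L v z s)
    {p : ℕ} (hp : p.Prime) [CharP Ω p] (hperf : ∀ x : L, ∃ y : L, y ^ p = x)
    {G : Polynomial L} (hG : KG v z G) :
    ∃ j, 0 < j ∧ j ≤ nr v z G ∧ ¬ p ∣ j ∧ hasseDeriv j G ≠ 0 ∧
      phi v z (hasseDeriv j G) + j * s = phi v z G + nr v z G * s := by
  classical
  have : Fact p.Prime := ⟨hp⟩
  by_contra hcon
  push Not at hcon
  have hdvd : ∀ j, 0 < j → j ≤ nr v z G → hasseDeriv j G ≠ 0 →
      phi v z (hasseDeriv j G) + j * s = phi v z G + nr v z G * s → p ∣ j := by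
    intro j h1 h2 h3 h4
    by_contra h5
    exact hcon j h1 h2 h5 h3 h4
  set q := nr v z G with hq
  have hq0 : 0 < q := hG.pos
  obtain ⟨q', hq'⟩ := hdvd q hq0 le_rfl (hG.hasse_ne hs hk) (by rw [hG.phi_hasse hs hk])
  have hq'0 : 0 < q' := by
    rcases Nat.eq_zero_or_pos q' with h | h
    · rw [h, mul_zero] at hq'
      omega
    · exact h
  have hn : q ≤ G.natDegree := nr_le G
  -- the set of indices
  set J : ℕ → Prop := fun j => j = 0 ∨ (j ≤ q ∧ hasseDeriv j G ≠ 0 ∧
    phi v z (hasseDeriv j G) + j * s = phi v z G + q * s) with hJ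
  have hJp : ∀ j, J j → p ∣ j := by
    intro j hj
    rcases Nat.eq_zero_or_pos j with h0 | h0
    · rw [h0]; exact dvd_zero p
    · rcases hj with h | ⟨h1, h2, h3⟩
      · omega
      · exact hdvd j h0 h1 h2 h3
  -- the values of the terms outside `J`
  have hev : Ev v z fun ψ : L => ∀ j ∈ Finset.range (G.natDegree + 1), (¬ J j →
      hasseDeriv j G ≠ 0 → phi v z G + q * s ≤ phi v z (hasseDeriv j G) + j * al v z ψ) := by
    refine Ev.all _ fun j _ => ?_
    by_cases hj : ¬ J j ∧ hasseDeriv j G ≠ 0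
    · obtain ⟨h1, h2⟩ := hj
      have hj0 : 0 < j := by
        rcases Nat.eq_zero_or_pos j with h | h
        · exact absurd (Or.inl h) h1
        · exact h
      have h3 : phi v z G + q * s < phi v z (hasseDeriv j G) + j * s := by
        rcases Nat.lt_or_ge q j with h4 | h4
        · exact hG.gt_sup hs hk hsup h4 h2
        · refine lt_of_le_of_ne (hG.ge_sup hs hk hsup hj0 h2) fun h5 => ?_
          exact h1 (Or.inr ⟨h4, h2, h5.symm⟩)
      have hj0' : (0 : ℝ) < j := by exact_mod_cast hj0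
      have h4 : (phi v z G + q * s - phi v z (hasseDeriv j G)) / j < s := by
        rw [div_lt_iff₀ hj0']
        linarith
      refine (hsup.ev h4).mono fun ψ hψ _ _ => ?_
      rw [div_lt_iff₀ hj0'] at hψ
      linarith
    · exact Ev.of_forall fun ψ h1 h2 => absurd ⟨h1, h2⟩ hj
  obtain ⟨ψ, ⟨hfa, hψ⟩⟩ := ((hs.ev_fa_hasse G).and hev).ex
  choose g hg using fun j => hperf ((hasseDeriv j G).eval ψ)
  obtain ⟨ρ, hρ, hρ0⟩ := (nr_pos_iff hG.monic.ne_zero).mp hG.pos
  obtain ⟨hne, hsub⟩ := hρ.sub hs ψ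
  set x := ρ - algebraMap L Ω ψ with hx
  have hx0 : x ≠ 0 := by
    intro h
    exact hne (by linear_combination (-1 : Ω) * h)
  have hvx : v x = al v z ψ := by
    rw [← hsub, ← v.map_neg _ hx0]
    congr 1
    rw [hx]
    ring
  have hT := taylor_root hρ0 ψ
  rw [← hx] at hT
  -- the polynomial `h`
  set c : ℕ → L := fun i => if J (p * i) then g (p * i) else 0 with hc
  set h : Polynomial L := ∑ i ∈ Finset.range (q' + 1), C (c i) * X ^ i with hh
  have hJq : J (p * q') := by
    rw [← hq']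
    exact Or.inr ⟨le_rfl, hG.hasse_ne hs hk, by rw [hq, hG.phi_hasse hs hk]⟩
  have hcq : c q' = g q := by
    rw [hc]
    simp only
    rw [if_pos hJq, ← hq']
  have hcoef : h.coeff q' = g q := by
    rw [hh, finsetSum_coeff, Finset.sum_eq_single q']
    · rw [coeff_C_mul, coeff_X_pow_self, mul_one, hcq]
    · intro i _ hi
      rw [coeff_C_mul, coeff_X_pow, if_neg (Ne.symm hi), mul_zero]
    · intro h1
      exact absurd (Finset.mem_range.mpr (Nat.lt_succ_self q')) h1
  obtain ⟨hqne, hqv⟩ := hG.val_hasse hs hk hq0 (hG.hasse_ne hs hk) (hfa q)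
  have hgq : g q ≠ 0 := by
    intro h1
    have := hg q
    rw [h1, zero_pow hp.ne_zero] at this
    exact hqne this.symm
  have hgqv : (p : ℝ) * v (algebraMap L Ω (g q)) = phi v z G := by
    have h1 := hg q
    have h2 : algebraMap L Ω (g q) ^ p = algebraMap L Ω ((hasseDeriv q G).eval ψ) := by
      rw [← map_pow, h1]
    have h3 := v.map_pow (map_ne_zero' hgq) p (x := algebraMap L Ω (g q))
    rw [← h3, h2, hqv]
    exact hG.phi_hasse hs hk
  have hdeg : h.natDegree = q' := by
    refine le_antisymm ?_ (le_natDegree_of_ne_zero (by rw [hcoef]; exact hgq))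
    rw [hh]
    refine natDegree_sum_le_of_forall_le _ _ fun i hi => ?_
    refine (natDegree_C_mul_X_pow_le _ _).trans ?_
    have := Finset.mem_range.mp hi
    omega
  have hlead : h.leadingCoeff = g q := by
    rw [leadingCoeff, hdeg, hcoef]
  have hh0 : h ≠ 0 := by
    intro h1
    rw [h1, natDegree_zero] at hdeg
    omega
  -- the value of `h` at `x`
  have hval : v.Ge (phi v z G + q * s) ((h.map (algebraMap L Ω)).eval x ^ p) := by
    have e1 : (h.map (algebraMap L Ω)).eval x ^ p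
        = ∑ j ∈ Finset.range (G.natDegree + 1),
          if J j then algebraMap L Ω ((hasseDeriv j G).eval ψ) * x ^ j else 0 := by
      rw [hh, Polynomial.map_sum, eval_finset_sum, sum_pow_char]
      have e2 : ∀ i ∈ Finset.range (q' + 1),
          (eval x (map (algebraMap L Ω) (C (c i) * X ^ i))) ^ p
            = if J (p * i) then algebraMap L Ω ((hasseDeriv (p * i) G).eval ψ) * x ^ (p * i)
              else 0 := by
        intro i _
        rw [Polynomial.map_mul, map_C, Polynomial.map_pow, map_X, eval_mul, eval_C, eval_pow,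
          eval_X, mul_pow, ← pow_mul, mul_comm i p, hc]
        simp only
        split_ifs with h1
        · rw [← map_pow, hg]
        · rw [map_zero, zero_pow hp.ne_zero, zero_mul]
      rw [Finset.sum_congr rfl e2]
      rw [← Finset.sum_image (s := Finset.range (q' + 1)) (g := fun i => p * i)
        (f := fun j => if J j then algebraMap L Ω ((hasseDeriv j G).eval ψ) * x ^ j else 0)]
      · refine Finset.sum_subset ?_ ?_
        · intro j hj
          obtain ⟨i, hi, rfl⟩ := Finset.mem_image.mp hj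
          rw [Finset.mem_range] at hi ⊢
          have : p * i ≤ p * q' := Nat.mul_le_mul_left p (by omega)
          omega
        · intro j hj hj'
          refine if_neg fun h1 => hj' ?_
          obtain ⟨i, rfl⟩ := hJp j h1
          refine Finset.mem_image.mpr ⟨i, Finset.mem_range.mpr ?_, rfl⟩
          have h2 : p * i ≤ q := by
            rcases h1 with h1 | h1
            · omega
            · exact h1.1
          rw [hq'] at h2
          have := Nat.le_of_mul_le_mul_left h2 hp.pos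
          omega
      · intro i _ i' _ h1
        exact Nat.eq_of_mul_eq_mul_left hp.pos h1
    have e3 : (h.map (algebraMap L Ω)).eval x ^ p
        = -∑ j ∈ Finset.range (G.natDegree + 1),
          if J j then 0 else algebraMap L Ω ((hasseDeriv j G).eval ψ) * x ^ j := by
      rw [e1, eq_neg_iff_add_eq_zero, ← Finset.sum_add_distrib]
      refine (Finset.sum_congr rfl fun j _ => ?_).trans hT
      split_ifs
      · rw [add_zero]
      · rw [zero_add]
    rw [e3]
    refine (RVal.Ge.sum _ _ fun j hj => ?_).neg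
    split_ifs with h1
    · exact RVal.Ge.zero
    · intro h2
      have h3 := left_ne_zero_of_mul h2
      have h4 := right_ne_zero_of_mul h2
      have h5 : hasseDeriv j G ≠ 0 := by
        intro h6
        rw [h6, eval_zero, map_zero] at h3
        exact h3 rfl
      have hj0 : 0 < j := by
        rcases Nat.eq_zero_or_pos j with h | h
        · exact absurd (Or.inl h) h1
        · exact h
      rw [v.map_mul h3 h4, v.map_pow hx0, hvx, (hG.val_hasse hs hk hj0 h5 (hfa j)).2]
      exact hψ j hj h1 h5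
  have hval' : v.Ge (v (h.map (algebraMap L Ω)).leadingCoeff
      + (h.map (algebraMap L Ω)).natDegree * s) ((h.map (algebraMap L Ω)).eval x) := by
    intro h1
    have h2 := hval (pow_ne_zero _ h1)
    rw [v.map_pow h1] at h2
    rw [leadingCoeff_map, natDegree_map, hdeg, hlead]
    have hp0 : (0 : ℝ) < p := by exact_mod_cast hp.pos
    have h3 : (q : ℝ) = p * q' := by exact_mod_cast hq'
    rw [← hgqv, h3] at h2
    have h4 : (p : ℝ) * (v (algebraMap L Ω (g q)) + q' * s)
        ≤ p * v ((h.map (algebraMap L Ω)).eval x) := by linarith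
    exact le_of_mul_le_mul_left h4 hp0
  obtain ⟨ρ', h1, h2⟩ := exists_root_ge (by rw [natDegree_map, hdeg]; exact hq'0) hval'
  -- the polynomial `Q`
  have hQ : 0 < nr v z (h.comp (X - C ψ)) := by
    have hQ0 : h.comp (X - C ψ) ≠ 0 := by
      intro h3
      have h4 : (h.comp (X - C ψ)).natDegree = q' := by
        rw [natDegree_comp, natDegree_X_sub_C, mul_one, hdeg]
      rw [h3, natDegree_zero] at h4
      omega
    rw [nr_pos_iff hQ0]
    refine ⟨algebraMap L Ω ψ + ρ', ?_, ?_⟩
    · refine hsup.near hs ?_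
      have : z - (algebraMap L Ω ψ + ρ') = (z - ρ) + (x - ρ') := by
        rw [hx]
        ring
      rw [this]
      exact (hsup.ge hρ).add h2
    · rw [aeval_comp, map_sub, aeval_X, aeval_C, add_sub_cancel_left, ← eval_map_algebraMap]
      exact h1
  refine hQ.ne' (hG.least _ ?_ ?_)
  · intro h3
    rw [h3] at hQ
    unfold nr nN at hQ
    simp at hQ
  · rw [natDegree_comp, natDegree_X_sub_C, mul_one, hdeg]
    have h3 : q' * 2 ≤ q' * p := Nat.mul_le_mul_left q' hp.two_le
    rw [hq', mul_comm] at hn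
    omega

/-- Step 2: the first index has least value at the radius `s`. -/
theorem KG.first_index (hs : Star L v z) (hk : NatU v) (hsup : Sup L v z s)
    {p : ℕ} (hp : p.Prime) [CharP Ω p] (hperf : ∀ x : L, ∃ y : L, y ^ p = x)
    {G : Polynomial L} (hG : KG v z G) :
    hasseDeriv 1 G ≠ 0 ∧ phi v z (hasseDeriv 1 G) + s = phi v z G + nr v z G * s := by
  obtain ⟨j, hj0, hjq, hjp, hjne, hjv⟩ := hG.exists_prime_index hs hk hsup hp hperf
  rcases Nat.lt_or_ge 1 j with h1 | h1
  · exfalso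
    have hjL : (j : Ω) ≠ 0 := fun h => hjp ((CharP.cast_eq_zero_iff Ω p j).mp h)
    have hjL' : (j : L) ≠ 0 := by
      intro h
      apply hjL
      rw [← map_natCast (algebraMap L Ω), h, map_zero]
    have hcomp : hasseDeriv (j - 1) (hasseDeriv 1 G) = (j : L) • hasseDeriv j G := by
      have h2 := congrArg (fun f => f G) (hasseDeriv_comp (R := L) (j - 1) 1)
      simp only [LinearMap.comp_apply, LinearMap.smul_apply] at h2
      have h3 : j - 1 + 1 = j := by omega
      rw [h3, Nat.choose_symm_of_eq_add (by omega : j = j - 1 + 1), Nat.choose_one_right] at h2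
      rw [h2, Nat.cast_smul_eq_nsmul]
    have hne1 : hasseDeriv 1 G ≠ 0 := by
      intro h2
      rw [h2, LinearMap.map_zero] at hcomp
      exact hjne ((smul_eq_zero.mp hcomp.symm).resolve_left hjL')
    obtain ⟨ψ, hψ1, hψ2⟩ := ((hs.ev_fa (hasseDeriv 1 G)).and (hs.ev_fa (hasseDeriv j G))).ex
    obtain ⟨h3, h4⟩ := hG.val_hasse hs hk hj0 hjne hψ2
    have h5 : (hasseDeriv (j - 1) (hasseDeriv 1 G)).eval ψ = (j : L) * (hasseDeriv j G).eval ψ := by
      rw [hcomp, eval_smul, smul_eq_mul]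
    have h6 := gt_hasseK hs hne1 (hG.nr_hasse one_pos hne1) hψ1 (j := j - 1) (by omega)
      (by rw [h5]; exact mul_ne_zero hjL' h3)
    rw [h5, map_mul, v.map_mul (map_ne_zero' hjL') (map_ne_zero' h3), h4, map_natCast,
      hk j hjL, zero_add] at h6
    have h7 := hsup.lt hs ψ
    have h8 := hG.ge_sup hs hk hsup one_pos hne1
    have h9 : (1 : ℝ) < j := by exact_mod_cast h1
    rw [Nat.cast_sub h1.le] at h6
    push_cast at h6 h8
    nlinarith
  · have : j = 1 := by omega
    subst this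
    push_cast at hjv
    rw [one_mul] at hjv
    exact ⟨hjne, hjv⟩

/-- Row H2. -/
theorem no_near (hs : Star L v z) (hk : NatU v) {p : ℕ} (hp : p.Prime) [CharP Ω p]
    (hperf : ∀ x : L, ∃ y : L, y ^ p = x)
    (hres : ∀ g : Ω, v.Ge 0 g → ∃ c : L, VPos v (g - algebraMap L Ω c))
    (hdiv : ∀ x : L, x ≠ 0 → ∀ n : ℕ, 0 < n → ∃ y : L, y ≠ 0 ∧
      n * v (algebraMap L Ω y) = v (algebraMap L Ω x))
    (M : Subfield Ω) (hLM : ∀ x : L, algebraMap L Ω x ∈ M) (hz : z ∈ M)
    (hM : ∀ a ∈ Cl v M, IsAlgebraic L a → a ∈ M)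
    (hac : ∀ x ∈ M, IsAlgebraic L x → ∃ y : L, algebraMap L Ω y = x)
    {P : Polynomial L} (hP : P ≠ 0) : nr v z P = 0 := by
  by_contra hnr
  obtain ⟨G, hG, -⟩ := KG.exists hP (Nat.pos_of_ne_zero hnr)
  obtain ⟨ζ, hζ, hζ0⟩ := (nr_pos_iff hG.monic.ne_zero).mp hG.pos
  have hzal : ¬ IsAlgebraic L z := by
    intro h
    obtain ⟨y, hy⟩ := hac z hz h
    exact hs.ne y (by rw [hy, sub_self])
  have hζz : z - ζ ≠ 0 := by
    intro h
    rw [sub_eq_zero] at h
    exact hzal ⟨G, hG.monic.ne_zero, by rw [h]; exact hζ0⟩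
  have hB : ∀ ψ : L, al v z ψ ≤ v (z - ζ) := fun ψ => (hζ hζz ψ).le
  obtain ⟨s, hsup⟩ := exists_sup hB
  obtain ⟨hne1, hv1⟩ := hG.first_index hs hk hsup hp hperf
  have h2 := hG.two_le hs hk hB
  -- an element of value `s`
  obtain ⟨ψ, hψ⟩ := (hs.ev_fa_hasse G).ex
  obtain ⟨ha1, ha2⟩ := hG.val_hasse hs hk one_pos hne1 (hψ 1)
  obtain ⟨hb1, hb2⟩ := hG.val_hasse hs hk hG.pos (hG.hasse_ne hs hk) (hψ _)
  rw [hG.phi_hasse hs hk] at hb2
  set q := nr v z G with hq
  obtain ⟨χ, hχ0, hχ⟩ := hdiv _ (div_ne_zero ha1 hb1) (q - 1) (by omega)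
  have hχΩ : algebraMap L Ω χ ≠ 0 := map_ne_zero' hχ0
  have hχs : v (algebraMap L Ω χ) = s := by
    rw [map_div₀, v.map_div (map_ne_zero' ha1) (map_ne_zero' hb1), ha2, hb2,
      Nat.cast_sub (by omega)] at hχ
    push_cast at hχ
    have h3 : (0 : ℝ) < (q : ℝ) - 1 := by
      have : (2 : ℝ) ≤ q := by exact_mod_cast h2
      linarith
    have h4 : ((q : ℝ) - 1) * v (algebraMap L Ω χ) = (q - 1) * s := by
      rw [hχ]
      linarith
    exact mul_left_cancel₀ h3.ne' h4
  -- the residue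
  have hζs := hsup.ge hζ hζz
  have hge : v.Ge 0 ((ζ - z) / algebraMap L Ω χ) := by
    intro _
    have h3 : ζ - z ≠ 0 := by
      intro h4
      exact hζz (by linear_combination (-1 : Ω) * h4)
    have h4 : v (ζ - z) = v (z - ζ) := by
      rw [← v.map_neg _ h3]
      congr 1
      ring
    rw [v.map_div h3 hχΩ, hχs, h4]
    linarith
  obtain ⟨c, hc⟩ := hres _ hge
  set u' : Ω := z + algebraMap L Ω (c * χ) with hu'
  have hu'M : u' ∈ M := M.add_mem hz (hLM _)
  set y₀ : Ω := (ζ - z) / algebraMap L Ω χ - algebraMap L Ω c with hy₀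
  have hζy : ζ = u' + algebraMap L Ω χ * y₀ := by
    rw [hu', hy₀, map_mul]
    field_simp
    ring
  have hnear : Near L v z u' := by
    refine hsup.near hs ?_
    have h3 : z - u' = -(algebraMap L Ω c * algebraMap L Ω χ) := by
      rw [hu', map_mul]
      ring
    rw [h3]
    refine RVal.Ge.neg fun h4 => ?_
    have h5 := left_ne_zero_of_mul h4
    have h6 : v.Ge 0 (algebraMap L Ω c) := by
      have h7 : algebraMap L Ω c = (ζ - z) / algebraMap L Ω χ - y₀ := by
        rw [hy₀]
        ring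
      rw [h7]
      exact hge.sub hc.ge
    rw [v.map_mul h5 hχΩ, hχs]
    linarith [h6 h5]
  -- the polynomial `F`
  set a : Ω := (algebraMap L Ω ((hasseDeriv 1 G).eval ψ) * algebraMap L Ω χ)⁻¹ with ha
  have haden : algebraMap L Ω ((hasseDeriv 1 G).eval ψ) * algebraMap L Ω χ ≠ 0 :=
    mul_ne_zero (map_ne_zero' ha1) hχΩ
  have ha0 : a ≠ 0 := inv_ne_zero haden
  have hva : v a = -(phi v z (hasseDeriv 1 G) + s) := by
    rw [ha, v.map_inv haden, v.map_mul (map_ne_zero' ha1) hχΩ, ha2, hχs]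
  set F : Polynomial Ω := C a * (G.map (algebraMap L Ω)).comp (C (algebraMap L Ω χ) * X + C u')
    with hF
  have hFc : ∀ j, F.coeff j = a * ((hasseDeriv j (G.map (algebraMap L Ω))).eval u'
      * algebraMap L Ω χ ^ j) := by
    intro j
    rw [hF, coeff_C_mul, comp_coeff]
  have hmapH : ∀ j, hasseDeriv j (G.map (algebraMap L Ω)) = (hasseDeriv j G).map (algebraMap L Ω) := by
    intro j
    ext n
    rw [hasseDeriv_coeff, coeff_map, coeff_map, hasseDeriv_coeff, map_mul, map_natCast]
  have hFj : ∀ j, 0 < j → hasseDeriv j G ≠ 0 → F.coeff j ≠ 0 ∧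
      v (F.coeff j) = phi v z (hasseDeriv j G) + j * s - (phi v z (hasseDeriv 1 G) + s) := by
    intro j hj hne
    obtain ⟨h3, h4⟩ := val_nearL hne (hG.nr_hasse hj hne) hnear
    have h5 : (hasseDeriv j (G.map (algebraMap L Ω))).eval u' = aeval u' (hasseDeriv j G) := by
      rw [hmapH, eval_map_algebraMap]
    rw [hFc, h5]
    refine ⟨mul_ne_zero ha0 (mul_ne_zero h3 (pow_ne_zero _ hχΩ)), ?_⟩
    rw [v.map_mul ha0 (mul_ne_zero h3 (pow_ne_zero _ hχΩ)), v.map_mul h3 (pow_ne_zero _ hχΩ),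
      v.map_pow hχΩ, hva, h4, hχs]
    ring
  have hFge' : ∀ j, 0 < j → v.Ge 0 (F.coeff j) := by
    intro j hj h3
    have hne : hasseDeriv j G ≠ 0 := by
      intro h4
      apply h3
      rw [hFc, hmapH, h4, Polynomial.map_zero, eval_zero, zero_mul, mul_zero]
    rw [(hFj j hj hne).2, hv1]
    have := hG.ge_sup hs hk hsup hj hne
    linarith
  have hF1 := hFj 1 one_pos hne1
  have hF1v : v (F.coeff 1) = 0 := by
    rw [hF1.2]
    push_cast
    ring
  have hFroot : F.eval y₀ = 0 := by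
    rw [hF, eval_mul, eval_C, eval_comp, eval_add, eval_mul, eval_C, eval_X, eval_C, add_comm,
      ← hζy, eval_map_algebraMap, hζ0, mul_zero]
  have hF0 : v.Ge 0 (F.coeff 0) := by
    have h3 : F.eval y₀ = F.coeff 0 + y₀ * F.divX.eval y₀ := by
      conv_lhs => rw [← F.divX_mul_X_add]
      simp only [eval_add, eval_mul, eval_C, eval_X]
      ring
    rw [hFroot] at h3
    have h4 : F.coeff 0 = -(y₀ * F.divX.eval y₀) := by linear_combination (-1 : Ω) * h3
    rw [h4]
    refine RVal.Ge.neg ?_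
    have h5 : v.Ge 0 (F.divX.eval y₀) := by
      rw [eval_eq_sum_range]
      refine RVal.Ge.sum _ _ fun i _ => ?_
      rw [coeff_divX]
      have h6 := (hFge' (i + 1) (Nat.succ_pos i))
      have h7 : v.Ge 0 (y₀ ^ i) := by
        intro h8
        by_cases h9 : y₀ = 0
        · rcases Nat.eq_zero_or_pos i with h10 | h10
          · rw [h10, pow_zero, v.map_one]
          · rw [h9, zero_pow h10.ne'] at h8
            exact absurd rfl h8
        · rw [v.map_pow h9]
          have := hc h9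
          positivity
      have := h6.mul h7
      rwa [add_zero] at this
    have := hc.ge.mul h5
    rwa [add_zero] at this
  have hFge : ∀ j, v.Ge 0 (F.coeff j) := by
    intro j
    rcases Nat.eq_zero_or_pos j with h3 | h3
    · rw [h3]
      exact hF0
    · exact hFge' j h3
  have hFM : ∀ j, F.coeff j ∈ Cl v M := by
    intro j
    refine Pool.Agent.LUC.Cl.subset ?_
    rw [hFc, hmapH]
    refine M.mul_mem (M.inv_mem (M.mul_mem (hLM _) (hLM _))) (M.mul_mem ?_ (M.pow_mem (hLM _) _))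
    rw [eval_eq_sum_range]
    refine M.sum_mem fun i _ => M.mul_mem ?_ (M.pow_mem hu'M _)
    rw [coeff_map]
    exact hLM _
  have hy₀M : y₀ ∈ clF v M := Pool.Agent.LUC.root_mem_cl M F hFge hFM hF1.1 hF1v hFroot hc
  have hζM : ζ ∈ M := by
    refine hM _ ?_ ⟨G, hG.monic.ne_zero, hζ0⟩
    have hζC : ζ ∈ clF v M := by
      rw [hζy]
      exact (clF v M).add_mem (Pool.Agent.LUC.le_clF hu'M)
        ((clF v M).mul_mem (Pool.Agent.LUC.le_clF (hLM _)) hy₀M)
    exact hζC
  obtain ⟨y, hy⟩ := hac ζ hζM ⟨G, hG.monic.ne_zero, hζ0⟩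
  rw [← hy] at hζ
  exact near_not_mem hs y hζ

end Main

end Pool.Agent.D2
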